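import Pool.Agent.Results.MP_75202e_al.MetabelianCompletion

/-!
# The universal divisible orderable envelope of a group

Every group `G` has a universal homomorphism `κ : G → K` to a divisible orderable group, and `K` is
the isolator of its image. If `G` is an ordered group which order-embeds in some divisible ordered
group, then `κ` is injective, and `K` carries an order for which it is a minimal divisible
completion of `G`; the same `K` serves for all such orders of `G`, and for every divisible ordered
group `D` and order-embedding `j : G → D` the order of `K` can be chosen so that the extension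
`K → D` of `j` preserves the order. The starting file `MetabelianCompletion`, whose definitions and
some of whose lemmas are used, constructs a universal minimal divisible completion for one order.
-/

set_option autoImplicit false

universe u v w

namespace Pool.Agent.Results.MP_75202e_al.UniversalEnvelope

open Pool.Agent.Results.MP_75202e_al.MetabelianCompletion

/-- A group is orderable if it has a linear order for which left and right multiplications are
monotone. -/
def Orderable (D : Type v) [Group D] : Prop :=
  ∃ _ : LinearOrder D, MulLeftMono D ∧ MulRightMono D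

theorem Orderable.root_inj {D : Type v} [Group D] (hD : Orderable D) {x y : D} {n : ℕ}
    (hn : 1 ≤ n) (h : x ^ n = y ^ n) : x = y := by
  obtain ⟨lo, h1, h2⟩ := hD
  exact root_unique hn h

theorem Orderable.of_injective {A : Type v} {B : Type w} [Group A] [Group B] (f : A →* B)
    (hf : Function.Injective f) (hB : Orderable B) : Orderable A := by
  obtain ⟨lo, h1, h2⟩ := hB
  let _ : LinearOrder A := LinearOrder.lift' f hf
  refine ⟨inferInstance, ⟨fun c a b hab => ?_⟩, ⟨fun c a b hab => ?_⟩⟩
  · change f (c * a) ≤ f (c * b)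
    rw [map_mul, map_mul]
    exact mul_le_mul_right (show f a ≤ f b from hab) _
  · change f (a * c) ≤ f (b * c)
    rw [map_mul, map_mul]
    exact mul_le_mul_left (show f a ≤ f b from hab) _

theorem orderable_pi {ι : Type u} {α : ι → Type u} [∀ i, Group (α i)]
    (h : ∀ i, Orderable (α i)) : Orderable (∀ i, α i) := by
  classical
  choose lo hl hr using h
  have := hl
  have := hr
  let _ : LinearOrder ι := linearOrderOfSTO (WellOrderingRel (α := ι))
  have : WellFoundedLT ι := ⟨(inferInstance : IsWellFounded ι WellOrderingRel).wf⟩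
  have h1 := lexMulLeftMono (α := α)
  have h2 := lexMulRightMono (α := α)
  have hO : Orderable (Lex (∀ i, α i)) := ⟨inferInstance, h1, h2⟩
  let f : (∀ i, α i) →* Lex (∀ i, α i) :=
    { toFun := fun x => toLex x
      map_one' := rfl
      map_mul' := fun _ _ => rfl }
  exact Orderable.of_injective f (fun _ _ h => h) hO

/-- Homomorphisms to an orderable group which agree on `G` agree on the isolator of `G`. -/
theorem hom_ext {G : Type u} {K : Type v} {D : Type w} [Group G] [Group K] [Group D]
    (hD : Orderable D) (κ : G →* K) (hκ : isolator κ.range = ⊤) (φ ψ : K →* D)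
    (h : ∀ g, φ (κ g) = ψ (κ g)) : φ = ψ := by
  have hle : isolator κ.range ≤ φ.eqLocus ψ := by
    apply isolator_le
    · rintro _ ⟨g, rfl⟩
      exact h g
    · intro x n hn hx
      have hx' : φ (x ^ n) = ψ (x ^ n) := hx
      rw [map_pow, map_pow] at hx'
      exact hD.root_inj hn hx'
  rw [hκ] at hle
  ext x
  exact hle (Subgroup.mem_top x)

/-- The isolator of the image of `G` in a divisible orderable group. -/
theorem isolator_facts {G : Type u} {T : Type v} [Group G] [Group T] (hT : IsDivisible T)
    (hO : Orderable T) (h : G →* T) :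
    IsDivisible (isolator h.range) ∧ Orderable (isolator h.range) ∧
      ∃ κ : G →* isolator h.range, (∀ g, ((κ g : isolator h.range) : T) = h g) ∧
        isolator κ.range = ⊤ := by
  have hd := le_isolator h.range
  have his := isolated_isolator h.range
  have hdiv : IsDivisible (isolator h.range) := by
    intro x n hn
    obtain ⟨y, hy⟩ := hT x n hn
    exact ⟨⟨y, his y n hn (by rw [hy]; exact x.2)⟩, Subtype.ext hy⟩
  refine ⟨hdiv, hO.of_injective (isolator h.range).subtype Subtype.coe_injective,
    h.codRestrict (isolator h.range) (fun g => hd ⟨g, rfl⟩), fun g => rfl, ?_⟩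
  rw [eq_top_iff]
  intro x _
  refine Subgroup.mem_sInf.2 ?_
  rintro J ⟨hJ1, hJ2⟩
  have hmap : isolator h.range ≤ J.map (isolator h.range).subtype := by
    apply isolator_le
    · rintro _ ⟨g, rfl⟩
      exact ⟨⟨h g, hd ⟨g, rfl⟩⟩, hJ1 ⟨g, rfl⟩, rfl⟩
    · rintro g n hn ⟨y, hy, hyg⟩
      have hg : g ∈ isolator h.range := his g n hn (by rw [← hyg]; exact y.2)
      refine ⟨⟨g, hg⟩, hJ2 ⟨g, hg⟩ n hn ?_, rfl⟩
      have : (⟨g, hg⟩ : isolator h.range) ^ n = y := Subtype.ext hyg.symm
      rw [this]
      exact hy
  obtain ⟨y, hy, hyx⟩ := hmap x.2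
  have : y = x := Subtype.ext hyx
  rw [← this]
  exact hy

/-- A homomorphism from a divisible group, which is the isolator of the image of `G`, to an
orderable group maps onto the isolator of the image of `G`. -/
theorem range_eq {G : Type u} {K : Type v} {D : Type w} [Group G] [Group K] [Group D]
    (hK : IsDivisible K) (hD : Orderable D) (κ : G →* K) (hκ : isolator κ.range = ⊤)
    (φ : K →* D) (j : G →* D) (h : ∀ g, φ (κ g) = j g) : φ.range = isolator j.range := by
  apply le_antisymm
  · have hle : isolator κ.range ≤ (isolator j.range).comap φ := by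
      apply isolator_le
      · rintro _ ⟨g, rfl⟩
        change φ (κ g) ∈ isolator j.range
        rw [h]
        exact le_isolator _ ⟨g, rfl⟩
      · intro x n hn hx
        have hx' : φ (x ^ n) ∈ isolator j.range := hx
        rw [map_pow] at hx'
        exact isolated_isolator _ _ n hn hx'
    rw [hκ] at hle
    rintro _ ⟨x, rfl⟩
    exact hle (Subgroup.mem_top x)
  · apply isolator_le
    · rintro _ ⟨g, rfl⟩
      exact ⟨κ g, h g⟩
    · rintro g n hn ⟨x, hx⟩
      obtain ⟨y, hy⟩ := hK x n hn
      refine ⟨y, hD.root_inj hn ?_⟩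
      rw [← map_pow, hy, hx]

theorem eval_surjective {G : Type u} {H : Type v} [Group G] [Group H] (hH : Orderable H)
    (h : G →* H) (hc : isolator h.range = ⊤) (r : ℕ → H → H)
    (hr : ∀ n d, 1 ≤ n → r n d ^ n = d) : Function.Surjective (RootTerm.eval h r) := by
  let R : Subgroup H :=
    { carrier := Set.range (RootTerm.eval h r)
      one_mem' := ⟨.of 1, by simp [RootTerm.eval]⟩
      mul_mem' := by
        rintro _ _ ⟨s, rfl⟩ ⟨t, rfl⟩
        exact ⟨.mul s t, rfl⟩
      inv_mem' := by
        rintro _ ⟨s, rfl⟩
        exact ⟨.inv s, rfl⟩ }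
  have hR : R = ⊤ := by
    rw [eq_top_iff, ← hc]
    apply isolator_le
    · rintro _ ⟨g, rfl⟩
      exact ⟨.of g, rfl⟩
    · rintro g n hn ⟨s, hs⟩
      refine ⟨.root n s, hH.root_inj hn ?_⟩
      change r n (s.eval h r) ^ n = g ^ n
      rw [hr n _ hn, hs]
  intro x
  have : x ∈ R := by rw [hR]; trivial
  exact this

/-- The homomorphisms from `G` to divisible orderable groups carried by quotients of
`RootTerm G`. -/
structure Idx (G : Type u) [Group G] : Type u where
  s : Setoid (RootTerm G)
  grp : Group (Quotient s)
  dv : IsDivisible (Quotient s)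
  od : Orderable (Quotient s)
  k : G →* Quotient s

theorem exists_idx {G : Type u} {H : Type v} [Group G] [Group H] (hH : Orderable H)
    (hdiv : IsDivisible H) (h : G →* H) (hc : isolator h.range = ⊤) :
    ∃ (i : Idx G), letI := i.grp; ∃ (e : Quotient i.s ≃* H), ∀ g, e (i.k g) = h g := by
  classical
  let r : ℕ → H → H := fun n d => if hn : 1 ≤ n then Classical.choose (hdiv d n hn) else 1
  have hr : ∀ n d, 1 ≤ n → r n d ^ n = d := by
    intro n d hn
    have : r n d = Classical.choose (hdiv d n hn) := dif_pos hn
    rw [this]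
    exact Classical.choose_spec (hdiv d n hn)
  have hsurj := eval_surjective hH h hc r hr
  let s : Setoid (RootTerm G) := Setoid.ker (RootTerm.eval h r)
  let e : Quotient s ≃ H := Setoid.quotientKerEquivOfSurjective _ hsurj
  let grp : Group (Quotient s) := e.group
  let em : Quotient s ≃* H := e.mulEquiv
  let k : G →* Quotient s := em.symm.toMonoidHom.comp h
  have hek : ∀ g, em (k g) = h g := fun g => em.apply_symm_apply (h g)
  have hdv : IsDivisible (Quotient s) := by
    intro d n hn
    obtain ⟨x, hx⟩ := hdiv (em d) n hn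
    refine ⟨em.symm x, em.injective ?_⟩
    rw [map_pow, em.apply_symm_apply, hx]
  have hod : Orderable (Quotient s) := hH.of_injective em.toMonoidHom em.injective
  exact ⟨⟨s, grp, hdv, hod, k⟩, em, hek⟩

/-- The universal homomorphism to a divisible orderable group. -/
theorem exists_universal (G : Type u) [Group G] :
    ∃ (K : Type u) (_ : Group K) (κ : G →* K),
      IsDivisible K ∧ Orderable K ∧ isolator κ.range = ⊤ ∧
      ∀ i : Idx G, letI := i.grp; ∃ π : K →* Quotient i.s, ∀ g, π (κ g) = i.k g := by
  let _ : ∀ i : Idx G, Group (Quotient i.s) := fun i => i.grp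
  let δ : G →* (∀ i : Idx G, Quotient i.s) :=
    { toFun := fun g i => i.k g
      map_one' := by
        funext i
        exact map_one i.k
      map_mul' := fun a b => by
        funext i
        exact map_mul i.k a b }
  have hdiv : IsDivisible (∀ i : Idx G, Quotient i.s) := by
    intro x n hn
    choose y hy using fun i : Idx G => i.dv (x i) n hn
    exact ⟨y, funext hy⟩
  have hord : Orderable (∀ i : Idx G, Quotient i.s) := orderable_pi fun i => i.od
  obtain ⟨h1, h2, κ, hκ, h3⟩ := isolator_facts hdiv hord δ
  refine ⟨isolator δ.range, inferInstance, κ, h1, h2, h3, fun i => ?_⟩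
  exact ⟨{ toFun := fun x => (x : ∀ i : Idx G, Quotient i.s) i
           map_one' := rfl
           map_mul' := fun _ _ => rfl }, fun g => congrFun (hκ g) i⟩

theorem exists_lift {G : Type u} {K : Type u} [Group G] [Group K] (κ : G →* K)
    (hu : ∀ i : Idx G, letI := i.grp; ∃ π : K →* Quotient i.s, ∀ g, π (κ g) = i.k g)
    {D : Type v} [Group D] (hD : IsDivisible D) (hO : Orderable D) (h : G →* D) :
    ∃ φ : K →* D, ∀ g, φ (κ g) = h g := by
  obtain ⟨a1, a2, κ', hκ', a3⟩ := isolator_facts hD hO h
  obtain ⟨i, e, he⟩ := exists_idx a2 a1 κ' a3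
  let _ := i.grp
  obtain ⟨π, hπ⟩ := hu i
  refine ⟨(isolator h.range).subtype.comp (e.toMonoidHom.comp π), fun g => ?_⟩
  change ((e (π (κ g)) : isolator h.range) : D) = h g
  rw [hπ, he, hκ']

theorem lex_order_aux {K : Type u} {L : Type u} {D : Type v} [Group K] [Group L] [LinearOrder L]
    [MulLeftMono L] [MulRightMono L] [Group D] [LinearOrder D] [MulLeftMono D]
    [MulRightMono D] (φ : K →* D) (ψ : K →* L) (hψ : Function.Injective ψ) :
    ∃ (_ : LinearOrder K) (_ : MulLeftMono K) (_ : MulRightMono K),
      Monotone φ ∧ ∀ a b : K, φ a < φ b → a ≤ b := by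
  let f : K → D ×ₗ L := fun x => toLex (φ x, ψ x)
  have hf : Function.Injective f := fun a b hab => hψ (Prod.ext_iff.1 hab).2
  let lo' : LinearOrder K := LinearOrder.lift' f hf
  have hle : ∀ a b : K, a ≤ b ↔ φ a < φ b ∨ φ a = φ b ∧ ψ a ≤ ψ b := fun a b =>
    Prod.Lex.toLex_le_toLex
  refine ⟨lo', ⟨fun c a b hab => ?_⟩, ⟨fun c a b hab => ?_⟩, fun a b hab => ?_,
    fun a b hab => (hle a b).2 (Or.inl hab)⟩
  · rw [hle, map_mul, map_mul, map_mul, map_mul]
    rcases (hle a b).1 hab with h | ⟨h1, h2⟩
    · exact Or.inl (mul_lt_mul_right h _)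
    · exact Or.inr ⟨by rw [h1], mul_le_mul_right h2 _⟩
  · change a * c ≤ b * c
    rw [hle, map_mul, map_mul, map_mul, map_mul]
    rcases (hle a b).1 hab with h | ⟨h1, h2⟩
    · exact Or.inl (mul_lt_mul_left h _)
    · exact Or.inr ⟨by rw [h1], mul_le_mul_left h2 _⟩
  · rcases (hle a b).1 hab with h | ⟨h1, _⟩
    · exact h.le
    · exact h1.le

/-- The lexicographic order on an orderable group over an ordered group. -/
theorem lex_order {K : Type u} {D : Type v} [Group K] [Group D] [LinearOrder D] [MulLeftMono D]
    [MulRightMono D] (φ : K →* D) (hK : Orderable K) :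
    ∃ (_ : LinearOrder K) (_ : MulLeftMono K) (_ : MulRightMono K),
      Monotone φ ∧ ∀ a b : K, φ a < φ b → a ≤ b := by
  obtain ⟨lo, h1, h2⟩ := hK
  exact lex_order_aux φ (MonoidHom.id K) Function.injective_id

/-- **Main theorem.** Every group `G` has a universal homomorphism `κ : G → K` to a divisible
orderable group `K`, and `K` is the isolator of the image of `G`. Moreover, for every linear order
making `G` an ordered group, every divisible ordered group `D` and every order-embedding
`j : G → D` there is a linear order on `K` for which `κ` is a minimal divisible completion of the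
ordered group `G` and the unique extension `φ : K → D` of `j` is order-preserving, with image the
isolator of `j(G)`; so `φ` is onto if `D` is a minimal divisible completion of `G`. -/
theorem result (G : Type u) [Group G] :
    ∃ (K : Type u) (_ : Group K) (κ : G →* K),
      (IsDivisible K ∧ Orderable K ∧ isolator κ.range = ⊤) ∧
      (∀ (D : Type v) [Group D], IsDivisible D → Orderable D → ∀ h : G →* D,
        ∃! φ : K →* D, ∀ g, φ (κ g) = h g) ∧
      ∀ (_ : LinearOrder G) (_ : MulLeftMono G) (_ : MulRightMono G)
        (D : Type w) [Group D] [LinearOrder D] [MulLeftMono D] [MulRightMono D]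
        (j : G →* D), IsDivisible D → IsOrderEmbedding j →
          ∃ (_ : LinearOrder K) (_ : MulLeftMono K) (_ : MulRightMono K),
            IsMinimalDivisibleCompletion κ ∧
            ∃ φ : K →* D, Monotone φ ∧ (∀ g, φ (κ g) = j g) ∧ φ.range = isolator j.range := by
  obtain ⟨K, hKg, κ, h1, h2, h3, h4⟩ := exists_universal G
  refine ⟨K, hKg, κ, ⟨h1, h2, h3⟩, fun D _ hD hO h => ?_, ?_⟩
  · obtain ⟨φ, hφ⟩ := exists_lift κ h4 hD hO h
    exact ⟨φ, hφ, fun ψ hψ => hom_ext hO κ h3 ψ φ fun g => (hψ g).trans (hφ g).symm⟩
  · intro _ _ _ D _ _ _ _ j hD hj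
    have hO : Orderable D := ⟨inferInstance, inferInstance, inferInstance⟩
    obtain ⟨φ, hφ⟩ := exists_lift κ h4 hD hO j
    obtain ⟨lo, m1, m2, hmono, hlt⟩ := lex_order φ h2
    refine ⟨lo, m1, m2, ⟨⟨fun a b hab => hj.1 ?_, fun a b hab => ?_⟩, h1, h3⟩, φ, hmono, hφ,
      range_eq h1 hO κ h3 φ j hφ⟩
    · rw [← hφ, ← hφ, hab]
    · rcases eq_or_lt_of_le hab with rfl | hlt'
      · exact le_rfl
      · refine hlt _ _ ?_
        rw [hφ, hφ]
        exact lt_of_le_of_ne (hj.2 a b hab) fun he => hlt'.ne (hj.1 he)

end Pool.Agent.Results.MP_75202e_al.UniversalEnvelope
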